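import Mathlib
import Pool.Agent.H1.CdcB

namespace Pool.Agent.Results.MP_7cf8d2_co.Colourable

open Finset Pool.Agent.H1.Par Pool.Agent.H1.Cdc

theorem result (V E : Type) [Fintype V] [DecidableEq V] [Fintype E] [DecidableEq E]
    (s t : E → V) (hloop : ∀ e, s e ≠ t e) (hcubic : ∀ v, deg s t univ v = 3)
    (C : Finset E) (hC : IsCircuit s t C) (c : E → Fin 3)
    (hc : ∀ e f, e ≠ f → deg s t C (s e) = 0 → deg s t C (t e) = 0 →
      deg s t C (s f) = 0 → deg s t C (t f) = 0 →
      (∃ v, (s e = v ∨ t e = v) ∧ (s f = v ∨ t f = v)) → c e ≠ c f) :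
    ∃ D : Fin 5 → Finset E, D 0 = C ∧ (∀ i v, Even (deg s t (D i) v)) ∧
      ∀ e, (univ.filter fun i => e ∈ D i).card = 2 := by
  have hloc : ∀ v, ∃ d : E → Fin 3,
      (∀ e, (s e = v ∨ t e = v) → deg s t C (s e) = 0 → deg s t C (t e) = 0 → d e = c e) ∧
      ∀ γ : Fin 3 → F, ∑ e ∈ univ.filter (fun e => s e = v ∨ t e = v), γ (d e) = ∑ i, γ i := by
    intro v
    let S : Finset E := univ.filter fun e => s e = v ∨ t e = v
    obtain ⟨g, hg⟩ := Finset.exists_equiv_extend_of_card_eq (α := S) (t := (univ : Finset (Fin 3)))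
      (by rw [Fintype.card_coe]; simpa [S, deg] using hcubic v)
      (s := univ.filter fun e : S => deg s t C (s e) = 0 ∧ deg s t C (t e) = 0)
      (f := fun e => c e) (subset_univ _) (by
        intro a ha b hb hab
        simp only [coe_filter, mem_univ, true_and, Set.mem_ofPred_eq] at ha hb
        by_contra hne
        exact hc a b (fun h => hne (Subtype.ext h)) ha.1 ha.2 hb.1 hb.2
          ⟨v, (mem_filter.mp a.2).2, (mem_filter.mp b.2).2⟩ hab)
    refine ⟨fun e => if h : e ∈ S then (g ⟨e, h⟩ : Fin 3) else 0, fun e he h1 h2 => ?_,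
      fun γ => ?_⟩
    · have hS : e ∈ S := mem_filter.mpr ⟨mem_univ _, he⟩
      simp only [hS, dif_pos]
      exact hg ⟨e, hS⟩ (mem_filter.mpr ⟨mem_univ _, h1, h2⟩)
    · rw [← Finset.sum_coe_sort S, ← Finset.sum_coe_sort (univ : Finset (Fin 3)),
        ← Equiv.sum_comp g]
      exact Finset.sum_congr rfl fun e _ => by simp [e.2]
  choose d hd1 hd2 using hloc
  let c' : E → Fin 3 := fun e => if deg s t C (s e) = 0 then d (s e) e else d (t e) e
  have hc' : ∀ v, deg s t C v = 0 → ∀ e, (s e = v ∨ t e = v) → c' e = d v e := by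
    intro v hv e he
    rcases he with he | he
    · simp [c', he, hv]
    · by_cases h : deg s t C (s e) = 0
      · have h2 : deg s t C (t e) = 0 := he ▸ hv
        simp only [c', h, if_true]
        rw [hd1 _ e (Or.inl rfl) h h2, hd1 v e (Or.inr he) h h2]
      · simp [c', h, he]
  let γ1 : Fin 3 → F := ![1, 0, 1]
  let γ2 : Fin 3 → F := ![0, 1, 1]
  have hcons : ∀ γ : Fin 3 → F, ∑ i, γ i = 0 → ∀ v, (∀ e ∈ C, s e ≠ v ∧ t e ≠ v) →
      bd s t (univ \ C) (fun e => γ (c' e)) v = 0 := by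
    intro γ hγ v hv
    rw [bd_eq hloop, ← hγ, ← hd2 v γ]
    have : ((univ \ C).filter fun e => s e = v ∨ t e = v)
        = univ.filter fun e => s e = v ∨ t e = v := by
      ext e
      simp only [mem_filter, mem_sdiff, mem_univ, true_and]
      exact ⟨fun h => h.2, fun h => ⟨fun he => by have := hv e he; tauto, h⟩⟩
    rw [this]
    exact Finset.sum_congr rfl fun e he => by
      rw [hc' v (deg_eq_zero.mpr hv) e (mem_filter.mp he).2]
  obtain ⟨D, hD, hcount⟩ := four hloop hC (univ \ C) disjoint_sdiff (fun e => γ1 (c' e))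
    (fun e => γ2 (c' e))
    (fun e _ => (by decide : ∀ i : Fin 3, γ1 i ≠ 0 ∨ γ2 i ≠ 0) _)
    (fun v hv => ⟨hcons γ1 (by decide) v hv, hcons γ2 (by decide) v hv⟩)
  refine ⟨![C, D (0, 0), D (0, 1), D (1, 0), D (1, 1)], rfl, fun i v => ?_, fun e => ?_⟩
  · fin_cases i
    · rcases hC.2.1 v with h | h <;> simp [h]
    all_goals exact hD _ v
  · have h1 := hcount e
    rw [Finset.card_filter] at h1 ⊢
    have hu : (univ : Finset (F × F)) = {(0, 0), (0, 1), (1, 0), (1, 1)} := by decide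
    rw [hu, Finset.sum_insert (by decide), Finset.sum_insert (by decide),
      Finset.sum_pair (by decide)] at h1
    rw [Fin.sum_univ_five]
    simp only [Matrix.cons_val_zero, Matrix.cons_val_one, Matrix.cons_val]
    by_cases h : e ∈ C <;> by_cases a : e ∈ D (0, 0) <;> by_cases b : e ∈ D (0, 1) <;>
      by_cases c : e ∈ D (1, 0) <;> by_cases d : e ∈ D (1, 1) <;> simp [h, a, b, c, d] at h1 ⊢

end Pool.Agent.Results.MP_7cf8d2_co.Colourable
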